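import Pool.Agent.Helper24.KK.GoalsC

set_option autoImplicit false
set_option linter.unusedSectionVars false

namespace Pool.Agent.Helper32.KK

open Finset MeasureTheory Filter
open Pool.Agent.Helper49.RS
open Pool.Agent.Helper24.KK

/-- The algebraic part of FIN. -/
lemma fin_alg (R l W N D s bin : ℝ) (hl : 1 ≤ l) (hR : 0 < R) (hN : 0 ≤ N) (hD : 0 < D)
    (hs : 0 ≤ s) (hW : 0 ≤ W) (hWR : R * W ≤ l ^ 2 * N)
    (hb : bin ^ 2 ≤ 4 * (R / l) ^ 2 * D) :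
    bin ^ 2 * (2 * (2 * (4 * (W + (2 * (l / R) + R * (l / R) ^ 2) * N)) / D) * s)
      ≤ 256 * R * N * s := by
  have hl0 : 0 < l := by linarith
  have h1 : W ≤ l ^ 2 * N / R := by
    rw [le_div_iff₀ hR]; linarith
  have h2 : (2 * (l / R) + R * (l / R) ^ 2) * N ≤ 3 * (l ^ 2 * N / R) := by
    have e1 : R * (l / R) ^ 2 = l ^ 2 / R := by field_simp
    have e2 : l / R ≤ l ^ 2 / R := by
      apply div_le_div_of_nonneg_right _ hR.le
      nlinarith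
    rw [e1]
    calc (2 * (l / R) + l ^ 2 / R) * N ≤ (2 * (l ^ 2 / R) + l ^ 2 / R) * N := by gcongr
      _ = 3 * (l ^ 2 * N / R) := by ring
  have h3 : 4 * (W + (2 * (l / R) + R * (l / R) ^ 2) * N) ≤ 16 * (l ^ 2 * N / R) := by linarith
  have h0 : 0 ≤ 4 * (W + (2 * (l / R) + R * (l / R) ^ 2) * N) := by positivity
  calc bin ^ 2 * (2 * (2 * (4 * (W + (2 * (l / R) + R * (l / R) ^ 2) * N)) / D) * s)
      ≤ (4 * (R / l) ^ 2 * D) * (2 * (2 * (16 * (l ^ 2 * N / R)) / D) * s) := by gcongr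
    _ = 256 * R * N * s := by field_simp; ring

theorem fin : FIN := by
  intro C a b ε τ h hC hRAT
  have hε := h.ε0
  have c1 := h.c1
  have c2 := h.c2
  have a1 := h.a1
  have a0 := h.a0
  have b1 := h.b1
  have hτ := h.hτ
  have τ0 : 0 < τ := by
    by_contra hc
    have : τ * (1 - b) ≤ 0 := mul_nonpos_of_nonpos_of_nonneg (not_lt.mp hc) (by linarith)
    linarith
  have hC1 : (2 : ℝ) ≤ C := by exact_mod_cast hC
  filter_upwards [eventually_ge_atTop 1,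
    ev_pow (2 * C) (1 + ε) (3 * (1 - a) - 23 * ε) (by linarith),
    ev_pow (4 * C) (τ + ε) (3 * (1 - a) - 23 * ε) (by linarith),
    ev_pow (2 * C) 1 (τ + 2) (by linarith),
    ev_pow (4 * C) τ (τ + 2) (by linarith),
    ev_log (4 * (τ + 2) + 4) ε (by linarith) hε,
    ev_pow 384 (1 - a + 2 * ε) (2 * (1 - a) - ε) (by linarith),
    ev_pow (512 * 128 * C) (2 * (1 - a) - 4 * ε) (2 * (1 - a) - ε) (by linarith)]
    with M hM1 e1 e2 e3 e4 e5 e6 e7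
  have hM : (1 : ℝ) ≤ M := by exact_mod_cast hM1
  have hM0 : (0 : ℝ) < M := by linarith
  have hlog : 0 ≤ Real.log M := Real.log_nonneg hM
  have one_le : ∀ y : ℝ, 0 ≤ y → 1 ≤ (M : ℝ) ^ y := fun y hy => Real.one_le_rpow hM hy
  have pos : ∀ y : ℝ, 0 < (M : ℝ) ^ y := fun y => Real.rpow_pos_of_pos hM0 y
  -- parameters
  have hB : ((pB τ M : ℕ) : ℝ) ≤ 2 * (M : ℝ) ^ τ := ceil_le_two _ (one_le τ τ0.le)
  have hB0 : (0 : ℝ) ≤ (pB τ M : ℕ) := Nat.cast_nonneg _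
  set P : ℝ := (M : ℝ) + (pB τ M : ℕ) with hP
  have hP0 : 0 < P := by linarith
  have hPle : P ≤ M + 2 * (M : ℝ) ^ τ := by linarith
  have hRe : ((sR C τ M : ℕ) : ℝ) = C * P := by
    unfold sR; push_cast; rfl
  have hl1 : 1 ≤ sl a ε M := by
    unfold sl
    rw [Nat.one_le_ceil_iff]
    exact pos _
  have hlM : sl a ε M ≤ M := by
    unfold sl
    rw [Nat.ceil_le]
    calc (M : ℝ) ^ (1 - a - 12 * ε) ≤ (M : ℝ) ^ (1 : ℝ) :=
          Real.rpow_le_rpow_of_exponent_le hM (by linarith)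
      _ = M := Real.rpow_one _
  have hlR : 2 * sl a ε M ≤ sR C τ M := by
    unfold sR
    have : 2 * M ≤ C * (M + pB τ M) := Nat.mul_le_mul hC (Nat.le_add_right _ _)
    omega
  obtain ⟨hbin, hD⟩ := hRAT (sR C τ M) (sl a ε M) hl1 hlR
  have hl1' : (1 : ℝ) ≤ (sl a ε M : ℕ) := by exact_mod_cast hl1
  have hllow : (M : ℝ) ^ (1 - a - 12 * ε) ≤ (sl a ε M : ℕ) := Nat.le_ceil _
  have hlup : ((sl a ε M : ℕ) : ℝ) ≤ 2 * (M : ℝ) ^ (1 - a - 12 * ε) :=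
    ceil_le_two _ (one_le _ (by linarith))
  have hR0 : (0 : ℝ) < (sR C τ M : ℕ) := by rw [hRe]; positivity
  have hN0 : 0 < sN a ε M := pos _
  -- R W ≤ l² N
  have hWR : ((sR C τ M : ℕ) : ℝ) * sW ε M ≤ ((sl a ε M : ℕ) : ℝ) ^ 2 * sN a ε M := by
    rw [hRe]
    unfold sW sN
    calc (C : ℝ) * P * (M : ℝ) ^ ε ≤ C * (M + 2 * (M : ℝ) ^ τ) * (M : ℝ) ^ ε := by
          gcongr
      _ = (1 / 2) * (2 * C * (M : ℝ) ^ (1 + ε)) + (1 / 2) * (4 * C * (M : ℝ) ^ (τ + ε)) := by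
          rw [Real.rpow_add hM0, Real.rpow_add hM0, Real.rpow_one]; ring
      _ ≤ (M : ℝ) ^ (3 * (1 - a) - 23 * ε) := by linarith
      _ = ((M : ℝ) ^ (1 - a - 12 * ε)) ^ 2 * (M : ℝ) ^ (1 - a + ε) := by
          rw [← Real.rpow_natCast, ← Real.rpow_mul hM0.le, ← Real.rpow_add hM0]
          congr 1; push_cast; ring
      _ ≤ _ := by gcongr
  -- ρ
  have hRlog : Real.log ((sR C τ M : ℕ) : ℝ) ≤ (τ + 2) * Real.log M := by
    rw [← Real.log_rpow hM0]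
    apply Real.log_le_log hR0
    rw [hRe]
    rw [Real.rpow_one] at e3
    calc (C : ℝ) * P ≤ C * (M + 2 * (M : ℝ) ^ τ) := by gcongr
      _ = (1 / 2) * (2 * C * M) + (1 / 2) * (4 * C * (M : ℝ) ^ τ) := by ring
      _ ≤ (M : ℝ) ^ (τ + 2) := by linarith
  have hRlog0 : 0 ≤ Real.log ((sR C τ M : ℕ) : ℝ) := Real.log_natCast_nonneg _
  have hρ : sρ C a ε τ M ≤ (M : ℝ) ^ (1 - a - 11 * ε) := by
    unfold sρ
    have hx1 : 1 ≤ (M : ℝ) ^ (1 - a - 12 * ε) := one_le _ (by linarith)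
    calc 2 * ((sl a ε M : ℕ) : ℝ) * Real.log ((sR C τ M : ℕ) : ℝ) + 4 * Real.log M
        ≤ 2 * (2 * (M : ℝ) ^ (1 - a - 12 * ε)) * ((τ + 2) * Real.log M)
          + 4 * Real.log M * (M : ℝ) ^ (1 - a - 12 * ε) := by
          have : 4 * Real.log M ≤ 4 * Real.log M * (M : ℝ) ^ (1 - a - 12 * ε) :=
            le_mul_of_one_le_right (by positivity) hx1
          gcongr
      _ = ((4 * (τ + 2) + 4) * Real.log M) * (M : ℝ) ^ (1 - a - 12 * ε) := by ring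
      _ ≤ (M : ℝ) ^ ε * (M : ℝ) ^ (1 - a - 12 * ε) := by gcongr
      _ = (M : ℝ) ^ (1 - a - 11 * ε) := by rw [← Real.rpow_add hM0]; congr 1; ring
  have hsq : Real.sqrt (sρ C a ε τ M * sN a ε M) ≤ (M : ℝ) ^ (1 - a - 5 * ε) := by
    rw [Real.sqrt_le_left (pos _).le]
    calc sρ C a ε τ M * sN a ε M ≤ (M : ℝ) ^ (1 - a - 11 * ε) * sN a ε M := by gcongr
      _ = ((M : ℝ) ^ (1 - a - 5 * ε)) ^ 2 := by
          unfold sN
          rw [← Real.rpow_natCast, ← Real.rpow_mul hM0.le, ← Real.rpow_add hM0]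
          congr 1; push_cast; ring
  have key := fin_alg ((sR C τ M : ℕ) : ℝ) ((sl a ε M : ℕ) : ℝ) (sW ε M) (sN a ε M)
    (dz (sR C τ M) (sl a ε M)) (Real.sqrt (sρ C a ε τ M * sN a ε M))
    (((sR C τ M).choose (sl a ε M) : ℕ) : ℝ) hl1' hR0 hN0.le hD (Real.sqrt_nonneg _)
    (pos _).le hWR hbin
  have hst : st C a ε τ M = 2 * (2 * (4 * (sW ε M + (2 * (((sl a ε M : ℕ) : ℝ) /
      ((sR C τ M : ℕ) : ℝ)) + ((sR C τ M : ℕ) : ℝ) * (((sl a ε M : ℕ) : ℝ) /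
      ((sR C τ M : ℕ) : ℝ)) ^ 2) * sN a ε M)) / dz (sR C τ M) (sl a ε M))
      * Real.sqrt (sρ C a ε τ M * sN a ε M) := by
    unfold st sδ sΔ avd
    rfl
  rw [← hst] at key
  have t2 : 2 * ((((sR C τ M).choose (sl a ε M) : ℕ) : ℝ) ^ 2 * st C a ε τ M)
      ≤ P * ((1 / 128) * (M : ℝ) ^ (2 * (1 - a) - ε)) := by
    calc 2 * ((((sR C τ M).choose (sl a ε M) : ℕ) : ℝ) ^ 2 * st C a ε τ M)
        ≤ 2 * (256 * ((sR C τ M : ℕ) : ℝ) * sN a ε M *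
            Real.sqrt (sρ C a ε τ M * sN a ε M)) := by linarith
      _ ≤ 2 * (256 * ((sR C τ M : ℕ) : ℝ) * sN a ε M * (M : ℝ) ^ (1 - a - 5 * ε)) := by
          gcongr
      _ = P * ((1 / 128) * (512 * 128 * C * (M : ℝ) ^ (2 * (1 - a) - 4 * ε))) := by
          rw [hRe]
          unfold sN
          have : (M : ℝ) ^ (2 * (1 - a) - 4 * ε)
              = (M : ℝ) ^ (1 - a + ε) * (M : ℝ) ^ (1 - a - 5 * ε) := by
            rw [← Real.rpow_add hM0]; congr 1; ring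
          rw [this]; ring
      _ ≤ _ := by gcongr
  have t1 : P * (sN a ε M * (1 + 2 * sW ε M)) ≤ P * ((1 / 128) * (M : ℝ) ^ (2 * (1 - a) - ε)) := by
    refine mul_le_mul_of_nonneg_left ?_ hP0.le
    unfold sN sW
    have hx := one_le ε hε.le
    calc (M : ℝ) ^ (1 - a + ε) * (1 + 2 * (M : ℝ) ^ ε)
        ≤ (M : ℝ) ^ (1 - a + ε) * ((M : ℝ) ^ ε + 2 * (M : ℝ) ^ ε) := by gcongr
      _ = 3 * (M : ℝ) ^ (1 - a + 2 * ε) := by
          have : (M : ℝ) ^ (1 - a + 2 * ε) = (M : ℝ) ^ (1 - a + ε) * (M : ℝ) ^ ε := by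
            rw [← Real.rpow_add hM0]; congr 1; ring
          rw [this]; ring
      _ ≤ (1 / 128) * (M : ℝ) ^ (2 * (1 - a) - ε) := by linarith
  have t3 : P * (((1 / 8) * (M : ℝ) ^ (1 - a)) ^ 2 * (M : ℝ) ^ (-ε))
      = P * ((1 / 64) * (M : ℝ) ^ (2 * (1 - a) - ε)) := by
    have : (M : ℝ) ^ (2 * (1 - a) - ε) = ((M : ℝ) ^ (1 - a)) ^ 2 * (M : ℝ) ^ (-ε) := by
      rw [← Real.rpow_natCast, ← Real.rpow_mul hM0.le, ← Real.rpow_add hM0]
      congr 1; push_cast; ring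
    rw [this]; ring
  rw [t3]
  calc _ ≤ P * ((1 / 128) * (M : ℝ) ^ (2 * (1 - a) - ε))
        + P * ((1 / 128) * (M : ℝ) ^ (2 * (1 - a) - ε)) := add_le_add t1 t2
    _ = _ := by ring

end Pool.Agent.Helper32.KK
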