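import Pool.Agent.Helper24.KK.GoalsC

set_option autoImplicit false
set_option linter.unusedSectionVars false

namespace Pool.Agent.Helper32.KK

open Finset MeasureTheory Filter
open Pool.Agent.Helper49.RS
open Pool.Agent.Helper24.KK

section core

variable {Ω : Type} [MeasurableSpace Ω] {Φ Mm : Type} [Fintype Φ] [DecidableEq Φ] [Fintype Mm]

lemma core_rdeg (l n : ℕ) (x : Ω → ℕ → ℝ) (β : Ω → ℕ → ℕ) (u V : ℕ → Mm → Φ)
    (hx : ∀ k < n, Measurable (fun ω => x ω k)) (hβ : ∀ k ≤ n, Measurable (fun ω => β ω k))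
    (I : Ix Φ l) :
    Measurable (fun ω => rdeg (x ω) u (fun k => V (β ω k)) n I) := by
  unfold rdeg
  refine Finset.measurable_sum _ fun k hk => ?_
  have hk' : k < n := Finset.mem_range.mp hk
  have h1 : Measurable (fun ω => |x ω k|) := (hx k hk').abs
  refine h1.mul ?_
  exact (Measurable.of_discrete (f := fun b : ℕ =>
    (((univ.filter fun m : Mm => u n m ∈ I.1.1 ∧ V b m ∈ I.2.1).card : ℕ) : ℝ))).comp (hβ k hk'.le)

lemma core_cdeg (l n : ℕ) (x : Ω → ℕ → ℝ) (β : Ω → ℕ → ℕ) (u V : ℕ → Mm → Φ)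
    (hx : ∀ k < n, Measurable (fun ω => x ω k)) (hβ : ∀ k ≤ n, Measurable (fun ω => β ω k))
    (J : Ix Φ l) :
    Measurable (fun ω => cdeg (x ω) u (fun k => V (β ω k)) n J) := by
  unfold cdeg
  refine Finset.measurable_sum _ fun k hk => ?_
  have hk' : k < n := Finset.mem_range.mp hk
  have h1 : Measurable (fun ω => |x ω k|) := (hx k hk').abs
  refine h1.mul ?_
  exact (Measurable.of_discrete (f := fun b : ℕ =>
    (((univ.filter fun m : Mm => u k m ∈ J.1.1 ∧ V b m ∈ J.2.1).card : ℕ) : ℝ))).comp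
      (hβ n le_rfl)

lemma core_ent (l n k : ℕ) (hk : k < n) (β : Ω → ℕ → ℕ) (u V : ℕ → Mm → Φ)
    (hβ : ∀ k ≤ n, Measurable (fun ω => β ω k)) (m : Mm) (I J : Ix Φ l) :
    MeasurableSet {ω | Ent u (fun k => V (β ω k)) n k m I J} := by
  have h1 : Measurable (fun ω => ((β ω k, β ω n) : ℕ × ℕ)) := (hβ k hk.le).prodMk (hβ n le_rfl)
  exact h1 (MeasurableSet.of_discrete (s := {q : ℕ × ℕ |
    Mv (u n m) (u k m) I.1.1 J.1.1 ∧ Mv (V q.1 m) (V q.2 m) I.2.1 J.2.1}))

lemma core_kept (l n k : ℕ) (hk : k < n) (x : Ω → ℕ → ℝ) (β : Ω → ℕ → ℕ) (u V : ℕ → Mm → Φ)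
    (Δ : ℝ) (hx : ∀ k < n, Measurable (fun ω => x ω k))
    (hβ : ∀ k ≤ n, Measurable (fun ω => β ω k)) (m : Mm) (I J : Ix Φ l) :
    MeasurableSet {ω | Kept (x ω) u (fun k => V (β ω k)) Δ n k m I J} := by
  unfold Kept
  refine MeasurableSet.inter (core_ent l n k hk β u V hβ m I J) (MeasurableSet.inter ?_ ?_)
  · exact measurableSet_le (core_rdeg l n x β u V hx hβ I) measurable_const
  · exact measurableSet_le (core_cdeg l n x β u V hx hβ J) measurable_const

open Classical in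
lemma core_nk (l n k : ℕ) (hk : k < n) (x : Ω → ℕ → ℝ) (β : Ω → ℕ → ℕ) (u V : ℕ → Mm → Φ)
    (Δ : ℝ) (hx : ∀ k < n, Measurable (fun ω => x ω k))
    (hβ : ∀ k ≤ n, Measurable (fun ω => β ω k)) (m : Mm) :
    Measurable (fun ω => (nk l (x ω) u (fun k => V (β ω k)) Δ n k m : ℝ)) := by
  unfold nk
  have h1 : (fun ω => (((univ.filter fun p : Ix Φ l × Ix Φ l =>
      Kept (x ω) u (fun k => V (β ω k)) Δ n k m p.1 p.2).card : ℕ) : ℝ))
      = fun ω => ∑ p : Ix Φ l × Ix Φ l,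
        if Kept (x ω) u (fun k => V (β ω k)) Δ n k m p.1 p.2 then (1 : ℝ) else 0 := by
    funext ω
    rw [Finset.card_filter]
    push_cast
    rfl
  rw [h1]
  refine Finset.measurable_sum _ fun p _ => ?_
  exact Measurable.ite (core_kept l n k hk x β u V Δ hx hβ m p.1 p.2) measurable_const
    measurable_const

open Classical in
lemma core_wt (l n k : ℕ) (hk : k < n) (x : Ω → ℕ → ℝ) (β : Ω → ℕ → ℕ) (u V : ℕ → Mm → Φ)
    (Δ : ℝ) (hx : ∀ k < n, Measurable (fun ω => x ω k))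
    (hβ : ∀ k ≤ n, Measurable (fun ω => β ω k)) (m : Mm) :
    Measurable (fun ω => wt l (x ω) u (fun k => V (β ω k)) Δ n k m) := by
  unfold wt
  have h := core_nk l n k hk x β u V Δ hx hβ m
  exact Measurable.ite (measurableSet_le measurable_const h) h.inv measurable_const

open Classical in
lemma core_kA (l n : ℕ) (x : Ω → ℕ → ℝ) (β : Ω → ℕ → ℕ) (u V : ℕ → Mm → Φ)
    (Δ : ℝ) (hx : ∀ k < n, Measurable (fun ω => x ω k))
    (hβ : ∀ k ≤ n, Measurable (fun ω => β ω k)) (I J : Ix Φ l) :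
    Measurable (fun ω => kA (x ω) u (fun k => V (β ω k)) Δ n I J) := by
  unfold kA
  refine Finset.measurable_sum _ fun k hk => ?_
  have hk' : k < n := Finset.mem_range.mp hk
  refine (hx k hk').mul ?_
  refine Finset.measurable_sum _ fun m _ => ?_
  exact Measurable.ite (core_kept l n k hk' x β u V Δ hx hβ m I J)
    (core_wt l n k hk' x β u V Δ hx hβ m) measurable_const

end core

theorem mea : MEA := by
  intro Ω _ ξ η hξ hη Φ Mm _ _ _ _ l π u V Δ n I J
  refine @core_kA Ω (pastF ξ η n) Φ Mm _ _ _ l n (fun ω k => ind (pr ξ ω) k - π k)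
    (fun ω k => bt (pr ξ ω) (pr η ω) k) u V Δ ?_ ?_ I J
  · intro k hk
    exact (@meas_ind Ω (pastF ξ η n) ξ k (past_meas_inl ξ η n k hk)).sub
      (@measurable_const _ _ _ (pastF ξ η n) _)
  · intro k hk
    exact @meas_bt Ω (pastF ξ η n) ξ η k (fun m hm => past_meas_inl ξ η n m (by omega))
      (past_meas_inr ξ η n)

end Pool.Agent.Helper32.KK
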